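import Pool.Agent.Lib.MP_9d46ca_gt.Check

set_option autoImplicit false

namespace Pool.Agent.Results.MP_9d46ca_gt.MutantKnots

open Pool.Agent.Lib.MP_9d46ca_gt

/-- There are two knots, given as the closures of two braids `w` and `w'` on `29` strands, which
are mutants of one another by a (negative) mutation, with `n = 2` for the closure of `w'` and
`n ≥ 3` for the closure of `w`. The closure of `w` is the connected sum `K # -K` of a genus one
knot `K` with Seifert matrix `(5 1; 2 11)` and its concordance inverse, the closure of `w'` is the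
connected sum of `K` and its mirror image. -/
theorem result : ∃ (N : ℕ) (w w' : BraidWord), ClosureIsKnot N w ∧ ClosureIsKnot N w' ∧
    NegMutant N w w' ∧ nKnot w' = 2 ∧ 3 ≤ nKnot w ∧ nKnot w ≤ 4 := by
  refine ⟨29, wordA ++ wordB, wordA ++ wordB.reverse, knot1, knot2, mutant, ?_, ?_, ?_⟩
  · rw [nKnot_second, nInv_V2]
  · rw [nKnot_first]
    exact nInv_V1_ge
  · rw [nKnot_first]
    exact nInv_V1_le

end Pool.Agent.Results.MP_9d46ca_gt.MutantKnots
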